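import Pool.Agent.W574.MO.Cone

set_option autoImplicit false

/-! # The motivic monodromy conjecture for the hypersurfaces `∑ y_j f_j(x₀, x₁, x₂) = 0`

Here the `f_j` are forms of the same degree `d` in the three variables `x₀, x₁, x₂`, and the `y_j`
are further variables: `F = univ f = ∑ y_j f_j(x₀, x₁, x₂)`. The motivic zeta function of `F` (jets
`φ` with `F(φ) = t^m + ...`) is computed from the ideal sheaf which the `f_j` define on the
projective plane, by blowing up points; see `ConeJetMot`, `ProjMot` (in
`Pool.Agent.W574.MO.FormDefs`), `PlaneMot` and `MotLocal` (in `Pool.Agent.W574.MO.Defs`).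

The proof:

* `functionalEq_of_univ`: a functional equation of `F` gives a functional equation of the ideal
  `(f_j)` with the same `b` (one direction of a theorem of Mustata, 2019);
* `functionalEq_deh`: a functional equation of an ideal generated by forms of the same degree gives
  one of the dehomogenized ideal, with the same `b`;
* `local_mainM`: if `b(s₀) ≠ 0`, then the contribution of a point of the plane lies in the ring of
  the series whose denominators do not vanish at `s₀`;
* `descent`: over the unique factorization domain `ℤ[L, L⁻¹]`, all denominators which do not
  belong to roots of `b` can be removed at the same time; every contribution of a point comes from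
  this ring;
* `curve_root`, `generic_root` and `minus_one`: `b(-1/m) = 0` for the multiplicities `m` of the
  curves in the zero locus, `b(-3/d) = 0` if three of the forms are algebraically independent, and
  `b(-1) = 0`. -/

namespace Pool.Agent.Results.MP_432c1b_ag.ConeForms

open MvPolynomial Pool.Agent.W574.MO Pool.Agent.W574.HS Pool.Agent.H628R4.TP

/-- Let `f_j` be forms of the same degree `d > 0` in three variables, not all zero, let `b` be a
polynomial which satisfies a functional equation `b(s) F ^ s = P(s) F ^ (s + 1)` (in particular the
Bernstein-Sato polynomial of `F = ∑ y_j f_j`), and let `Z ∈ M⟦T⟧` be the motivic zeta function of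
`F`. Then `Z` lies in the ring `M[T][(1 - L⁻ⁿ Tᵃ)⁻¹]`, where the pairs `a, n ≥ 1` are such that
`-n/a` is a root of `b` or, only in the case where the Jacobian determinants of all triples of the
`f_j` vanish, `-n/a = -3/d`; see `ConePair`. -/
theorem result {M : Type} [CommRing M] (L : Mˣ) {ι : Type} [Fintype ι]
    (f : ι → MvPolynomial (Fin 3) ℂ) (d : ℕ) (hd : 0 < d) (hf : ∀ j, (f j).IsHomogeneous d)
    (hf0 : ∃ j, f j ≠ 0) (b : Polynomial ℂ) (hb : IsBFunction (univ f) b)
    (Z : PowerSeries M) (hZ : ConeJetMot L f d Z) : Z ∈ DenRing L (ConePair f d b) := by
  classical
  exact cone_jet_mot L f d hd hf hf0 b hb Z hZ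

end Pool.Agent.Results.MP_432c1b_ag.ConeForms
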