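import Mathlib
import Pool.Agent.W425.MM.Fin

/-!
# The motivic monodromy conjecture for nondegenerate polynomials without B1-facets

Let `k` be a field, `k ⊂ ℂ`, and let `f = ∑_j c_j x ^ (v j) ∈ k[x_1, …, x_n]`, `f(0) = 0`, be
nondegenerate with respect to its Newton polytope: for every face of the polytope, the face
polynomial and its derivatives have no common zero in the complex torus. No further genericity is
assumed; the number of variables and the singularities are arbitrary (they need not be isolated),
the Newton polyhedron need not be simplicial.

For a facet of the Newton polyhedron with primitive inner normal vector `a ∈ ℕ ^ n` let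
`N_a = min ⟨a, ·⟩ > 0` be its order and `|a| / N_a` its (negative) candidate pole. The only
hypothesis on the polytope is that for every such facet either `|a| / N_a` is an integer or it is
congruent modulo `ℤ` to the value of a facet `a'` which contains a simplex that is not of type `B1`.

Then the motivic monodromy conjecture holds for `f`: the motivic zeta function
`∑_{d ≥ 0} [X_{d,1}] 𝕃 ^ (- n d) T ^ d`, in the Grothendieck ring of varieties over `k` localised at
`𝕃`, lies in the ring generated by `T` and finitely many `1 / (1 - 𝕃 ^ a T ^ b)` with `a < 0 < b` such
that `a / b - i` is a root of the Bernstein-Sato polynomial of `f` for an integer `i`; by the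
theorem of Malgrange and Kashiwara `exp(2 π i a / b)` is an eigenvalue of the monodromy of `f` at some
point of `{f = 0}`. The same holds, with the same pairs `(a, b)`, if only the jets with origin in a
constructible set `W` are counted.

Method. The functional equation of the Bernstein-Sato polynomial of `f` is deformed to very general
coefficients (modules over `ℂ⟦τ⟧[s, θ]` with a connection, Kouchnirenko's theorem). It gives an
algebraic relation, to which functionals (integrals over the coordinate subspace
`{x_i = 0 : a_i = 0}` of smoothed delta and step functions) are applied, one for each facet `a`. The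
kernel `∏_{j ∈ J} X_j` of a simplex `J` which is not of type `B1` is admissible, and the limit of the
functional is `c / (N_a s + |a|)` with `c ≠ 0`, which shows that `-|a| / N_a - i` is a root for a natural
number `i`.
-/

set_option autoImplicit false

namespace Pool.Agent.Results.MP_432c1b_ag.NondegenerateMotivic

open MvPolynomial Pool.Agent.W428.MOT Pool.Agent.W375.MG Pool.Agent.W425.MM
  Pool.Agent.W425.ND

/-- **The motivic monodromy conjecture for all polynomials `f = ∑_j c_j x ^ (v j)` over `k ⊂ ℂ` which
are nondegenerate with respect to their Newton polytope and satisfy `NoB1`.**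

`spa v c` is the polynomial `∑_j c_j x ^ (v j)`; the `c j` may be zero, so that the `v j` may include
all the lattice points of the polytope. `Nondeg v c` says that for every face of the convex hull of
the `v j` (the face where the linear form `w ∈ ℝ ^ n` is minimal) the face polynomial and its
logarithmic derivatives have no common zero in `(ℂ \ 0) ^ n`.

`NoB1 v False` says that for every ray `a` of the normal fan of the Newton polyhedron (`IsRay v a`)
with `N_a := gord v a = min_j ⟨a, v j⟩ > 0` either `N_a` divides `|a|`, or `|a| / N_a - |a'| / N_{a'} ∈ ℤ`
for some `a' ∈ ℕ ^ n` with `N_{a'} > 0` and `NonB v False a'`: there is a set `J` of `#{i | a' i ≠ 0}`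
elements with `⟨a', v j⟩ = N_{a'}` for `j ∈ J` such that the vectors `(v j i)_{a' i ≠ 0}`, `j ∈ J`, are
linearly independent and such that no variable `x_i` with `a' i ≠ 0` occurs in exactly one of the
monomials `x ^ (v j)`, `j ∈ J`, and there with exponent `1`.

`W = Set.univ` gives the motivic zeta function of `f`. `IsBFunction f b` says that
`b(s) f ^ s = P(s) f ^ (s + 1)` for a differential operator `P(s)` in the Weyl algebra, polynomial
in `s`; the Bernstein-Sato polynomial `b_f` is one of these polynomials `b`. -/
theorem result (k : Type) [Field k] [Algebra k ℂ] {n r : ℕ} (hr : 1 ≤ r)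
    (v : Fin r → Fin n → ℕ) (c : Fin r → k) (hv : Function.Injective v) (hv0 : ∀ j, v j ≠ 0)
    (hnd : Nondeg v (fun j => algebraMap k ℂ (c j))) (hB : NoB1 v False) :
    ∃ S : Finset (ℤ × ℤ),
      (∀ p ∈ S, p.1 < 0 ∧ 0 < p.2 ∧ ∀ b : Polynomial ℂ,
        Pool.Agent.H628R4.TP.IsBFunction (spa v (fun j => algebraMap k ℂ (c j))) b →
          ∃ i : ℤ, b.eval ((p.1 : ℂ) / p.2 - i) = 0) ∧
      ∀ W : Set (Pt k (Fin n)), Constr W → zetaW (spa v c) W ∈ ratRing k S := by
  obtain ⟨S, hS, hz⟩ := main hr v c hv hnd False hB
  refine ⟨S, fun p hp => ⟨(hS p hp).1, (hS p hp).2.1, fun b hb => ?_⟩, fun W hW => ?_⟩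
  · obtain ⟨h1, h2⟩ := of_global v hr _ hv hv0 hnd b hb
    exact (hS p hp).2.2 b h1 h2
  · rw [zetaW_eq]
    exact hz k W {1} hW good_one

end Pool.Agent.Results.MP_432c1b_ag.NondegenerateMotivic
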