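import Pool.Agent.W375.MG.Out

/-!
# The motivic monodromy conjecture for sparse polynomials, global zeta function

Let `f = x ^ A (∑_j c_j x ^ (m_j)) ^ e` with `r ≥ 2` terms, `c_j ≠ 0`, affinely independent
exponents `m_j`, `e ≥ 1`, such that for every variable `x_i` either `x_i ∣ x ^ A` or no `m_j`
has `x_i`-exponent `1`. The motivic zeta function `∑_{d ≥ 0} [X_{d,1}] 𝕃 ^ (- n d) T ^ d` of `f`,
in the Grothendieck ring of varieties over the base field localised at `𝕃`, lies in the ring
generated by `T` and finitely many `1 / (1 - 𝕃 ^ a T ^ b)` with `a < 0 < b` and `a / b` a root of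
the Bernstein-Sato polynomial of `f`. The same holds, with the same pairs `(a, b)`, if only the
jets with origin in a constructible set `W` are counted.
-/

set_option autoImplicit false

namespace Pool.Agent.Results.MP_432c1b_ag.SparseMotivicGlobal

open MvPolynomial Pool.Agent.W428.MOT Pool.Agent.W375.MG

/-- **The motivic monodromy conjecture (Bernstein-Sato form) for the global motivic zeta function
of the polynomials `f = x ^ A (∑_j c_j x ^ (m_j)) ^ e` with affinely independent exponents `m_j`
and no exponent `1` in the variables which do not divide `x ^ A`.**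

`W = Set.univ` gives the motivic zeta function of `f`. `IsBFunction f b` says that
`b(s) f ^ s = P(s) f ^ (s + 1)` for a differential operator `P(s)`; the Bernstein-Sato polynomial
`b_f` is one of these polynomials `b`. -/
theorem result (k : Type) [Field k] [Algebra k ℂ] {n r : ℕ}
    (A : Fin n → ℕ) (m : Fin r → Fin n → ℕ) (c : Fin r → k) (e : ℕ)
    (hm : AffineIndependent ℚ (fun (j : Fin r) (i : Fin n) => (m j i : ℚ)))
    (hc : ∀ j, c j ≠ 0) (hr : 2 ≤ r) (he : 0 < e) (h1 : ∀ i, A i ≠ 0 ∨ ∀ j, m j i ≠ 1) :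
    ∃ S : Finset (ℤ × ℤ),
      (∀ p ∈ S, p.1 < 0 ∧ 0 < p.2 ∧ ∀ b : Polynomial ℂ,
        Pool.Agent.H628R4.TP.IsBFunction (sp A m (fun j => algebraMap k ℂ (c j)) e) b →
          b.eval ((p.1 : ℂ) / p.2) = 0) ∧
      ∀ W : Set (Pt k (Fin n)), Constr W → zetaW (sp A m c e) W ∈ ratRing k S := by
  obtain ⟨S, hS, hz⟩ := fin (k := k) (K := k) A m c e hm hc hr he h1
  refine ⟨S, hS, fun W hW => ?_⟩
  rw [zetaW_eq]
  exact hz W {1} hW good_one

end Pool.Agent.Results.MP_432c1b_ag.SparseMotivicGlobal
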