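import Pool.Agent.W574.RO.Main

set_option autoImplicit false

/-! # The motivic monodromy conjecture for `∑ y_j f_j`, where the ideal `(f_j)` is obtained from
ideals in two variables by sums and products in disjoint sets of variables

The family `A = (f_j)` of polynomials in any number of variables `x_i` is obtained from families of
polynomials in two variables (and from powers of a variable) by the operations `(f_j), (g_k) ↦
(f_j(x), g_k(x'))` and `(f_j), (g_k) ↦ (f_j(x) g_k(x'))`, applied to disjoint sets of variables; see
`Built`, `FormJet` (in `Pool.Agent.W574.RO.Defs`) and `MotLocal` (in `Pool.Agent.W574.MO.Defs`).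

The proof:

* `functionalEq_of_univ` (one half of a theorem of Mustata): a functional equation of
  `F = ∑ y_j f_j` gives one of the ideal `(f_j)`, with the same `b`;
* `functionalEq_sum`: if `β` is a root of every `b` which satisfies a functional equation of `(g_k)`,
  then there is a linear functional on the functions `s ↦ ∑ P(s) ∏ g_k ^ (s_k + c_k)` which vanishes
  for `∑ c_k ≥ 1` and maps `q(∑ s_k) ∏ g_k ^ s_k` to `q(β)`; applied to a functional equation
  of `(f_j, g_k)` with `b(s)` it gives one of `(f_j)` with `b(s + β)`;
* `functionalEq_mul`: restriction to `∏ (f_j g_k₀) ^ s_j` and to a point `y` with `g_k₀(y) ≠ 0`;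
* `point_forced`: if `-n/a` is not a root of some `b` for an ideal of `ℂ[x₁, x₂]`, then the
  denominator `1 - L⁻ⁿ Tᵃ` can be removed from the contribution of a point, and also from the series
  of the volumes of `ord I ≥ e` (because the contribution has the value `1` at `T = 1`);
* `had_mem`: the denominators of the coefficientwise product of two series. -/

namespace Pool.Agent.Results.MP_432c1b_ag.SumsAndProducts

open MvPolynomial Pool.Agent.W574.MO Pool.Agent.W574.RO Pool.Agent.W574.HS

/-- Let the family `A = (f_j)` be obtained from families of polynomials in two variables and from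
powers of a variable by sums and products in disjoint sets of variables, let `F = ∑ y_j f_j`, let
`b` be a polynomial such that `b(s) F^s = P(s) F^(s + 1)` for some `P` in the Weyl algebra with the
parameter `s` (in particular the Bernstein-Sato polynomial of `F`), and let `Z ∈ M⟦T⟧` be the
motivic zeta function of `F`. Then `Z` lies in the ring `M[T][(1 - L⁻ⁿ Tᵃ)⁻¹]`, where the
pairs `a, n ≥ 1` are such that `-n/a` is a root of `b`. -/
theorem result {M : Type} [CommRing M] (L : Mˣ) (A : Fam) (b : Polynomial ℂ)
    (hb : Pool.Agent.H628R4.TP.IsBFunction (univ A.f) b) (Z : PowerSeries M)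
    (hZ : FormJet L A Z) : Z ∈ DenRing L (RootPair b) := by
  obtain ⟨Z', hZ', rfl⟩ := hZ
  exact built_form A Z' hZ' b hb _

end Pool.Agent.Results.MP_432c1b_ag.SumsAndProducts
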